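import Mathlib
import Pool.Agent.H98.Erg4

set_option autoImplicit false

namespace Pool.Agent.Results.MP_e00215_an.ErgNice

open Filter Topology MeasureTheory Finset Pool.Agent.H98.Erg
open scoped NNReal Classical

/-- `R` is a set of nice recurrence. -/
def Nice (R : Set ℕ) : Prop :=
  ∀ (X : Type) [MeasurableSpace X] (μ : Measure X) [IsProbabilityMeasure μ] (T : X → X),
    MeasurePreserving T μ μ →
    ∀ A : Set X, MeasurableSet A → 0 < μ A → ∀ ε : ℝ, 0 < ε →
      ∃ n ∈ R, μ.real A ^ 2 - ε < μ.real (A ∩ T^[n] ⁻¹' A)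

/-- `R` is a set of ergodic nice recurrence. -/
def ErgodicNice (R : Set ℕ) : Prop :=
  ∀ (X : Type) [MeasurableSpace X] (μ : Measure X) [IsProbabilityMeasure μ] (T : X → X),
    MeasurePreserving T μ μ →
    (∀ B : Set X, MeasurableSet B → T ⁻¹' B = B → μ B = 0 ∨ μ B = 1) →
    ∀ A : Set X, MeasurableSet A → 0 < μ A → ∀ ε : ℝ, 0 < ε →
      ∃ n ∈ R, μ.real A ^ 2 - ε < μ.real (A ∩ T^[n] ⁻¹' A)

lemma corr {X : Type} [MeasurableSpace X] (μ : Measure X) [IsProbabilityMeasure μ] {T : X → X}
    (hT : MeasurePreserving T μ μ) {A : Set X} (hA : MeasurableSet A) (n : ℕ) :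
    ∫ ω, (A.indicator 1 ω - μ.real A) * (A.indicator 1 (T^[n] ω) - μ.real A) ∂μ =
      μ.real (A ∩ T^[n] ⁻¹' A) - μ.real A ^ 2 := by
  have hB : MeasurableSet (T^[n] ⁻¹' A) := (hT.iterate n).measurable hA
  have hm : μ.real (T^[n] ⁻¹' A) = μ.real A := by
    simp only [Measure.real, (hT.iterate n).measure_preimage hA.nullMeasurableSet]
  have e : ∀ ω, (A.indicator 1 ω - μ.real A) * (A.indicator 1 (T^[n] ω) - μ.real A) =
      (A ∩ T^[n] ⁻¹' A).indicator 1 ω - (μ.real A * A.indicator 1 ω +
        (μ.real A * (T^[n] ⁻¹' A).indicator 1 ω - μ.real A ^ 2)) := fun ω => by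
    by_cases h1 : ω ∈ A <;> by_cases h2 : T^[n] ω ∈ A <;> simp [Set.indicator, h1, h2] <;> ring
  have hi : ∀ {s : Set X}, MeasurableSet s → Integrable (s.indicator (1 : X → ℝ)) μ :=
    fun hs => (integrable_const (1 : ℝ)).indicator hs
  simp only [e]
  rw [integral_sub (hi (hA.inter hB)) (by
      exact ((hi hA).const_mul _).add (((hi hB).const_mul _).sub (integrable_const _))),
    integral_add ((hi hA).const_mul _) (by exact ((hi hB).const_mul _).sub (integrable_const _)),
    integral_sub ((hi hB).const_mul _) (integrable_const _), integral_const_mul,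
    integral_const_mul, integral_indicator_one (hA.inter hB), integral_indicator_one hA,
    integral_indicator_one hB, hm]
  simp only [integral_const, probReal_univ, one_smul]
  ring

lemma split (σ : Measure TT) [IsFiniteMeasure σ] {δ : ℝ} (hδ : 0 < δ) :
    ∃ (F : Finset TT) (D : Set TT), 0 ∉ F ∧ NullSingletonClass (σ.restrict D) ∧
      ∀ n : ℕ, ∑ a ∈ F, σ.real {a} * (ee (n • a)).re + ∫ x in D, (ee (n • x)).re ∂σ ≤
        ∫ x, (ee (n • x)).re ∂σ + δ := by
  have hc : (insert 0 {t : TT | 0 < σ {a | id a = t}}).Countable :=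
    (Measure.countable_meas_level_set_pos measurable_id).insert 0
  obtain ⟨e, he⟩ := hc.exists_eq_range (Set.insert_nonempty _ _)
  rw [he] at hc
  have hm : ∀ N, MeasurableSet (Set.range e \ ↑((range N).image e)) := fun N =>
    (hc.mono Set.diff_subset).measurableSet
  have hl := tendsto_measure_iInter_atTop (μ := σ) (fun N => (hm N).nullMeasurableSet)
    (fun i j hij => Set.diff_subset_diff_right
      (coe_subset.2 (image_subset_image (range_mono hij)))) ⟨0, measure_ne_top _ _⟩
  have h0 : ⋂ N, (Set.range e \ ↑((range N).image e)) = ∅ := by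
    refine Set.eq_empty_of_forall_notMem fun x hx => ?_
    obtain ⟨⟨k, rfl⟩, -⟩ := Set.mem_iInter.1 hx 0
    exact (Set.mem_iInter.1 hx (k + 1)).2 (mem_coe.2 (mem_image_of_mem _ (self_mem_range_succ k)))
  rw [h0, measure_empty] at hl
  obtain ⟨N, hN⟩ := (hl.eventually (gt_mem_nhds (ENNReal.ofReal_pos.2 hδ))).exists
  refine ⟨((range N).image e).erase 0, (Set.range e)ᶜ, notMem_erase _ _, ⟨fun x => ?_⟩,
    fun n => ?_⟩
  · rw [Measure.restrict_apply (measurableSet_singleton x)]
    by_cases hx : x ∈ Set.range e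
    · rw [Set.singleton_inter_eq_empty.2 (by simpa using hx), measure_empty]
    · refine measure_mono_null Set.inter_subset_left ?_
      rw [← he] at hx
      by_contra h
      exact hx (Or.inr (pos_iff_ne_zero.2 h))
  · have hi : Integrable (fun x : TT => (ee (n • x)).re) σ := rint (by fun_prop) _
    have hsub : (↑((range N).image e) : Set TT) ⊆ Set.range e := by
      intro x hx
      obtain ⟨k, -, rfl⟩ := mem_image.1 (mem_coe.1 hx)
      exact ⟨k, rfl⟩
    have h1 := integral_add_compl hc.measurableSet hi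
    have h2 := setIntegral_diff (Finset.measurableSet ((range N).image e)) hi.integrableOn hsub
    rw [integral_finset _ hi.integrableOn] at h2
    have h3 : ‖∫ x in Set.range e \ ↑((range N).image e), (ee (n • x)).re ∂σ‖ ≤
        1 * σ.real (Set.range e \ ↑((range N).image e)) :=
      norm_setIntegral_le_of_norm_le_const (measure_lt_top _ _) fun x _ =>
        (Complex.abs_re_le_norm _).trans (norm_ee _).le
    have h4 : σ.real (Set.range e \ ↑((range N).image e)) ≤ δ :=
      ENNReal.toReal_le_of_le_ofReal hδ.le hN.le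
    have h5 : ∑ a ∈ ((range N).image e).erase 0, σ.real {a} * (ee (n • a)).re ≤
        ∑ a ∈ (range N).image e, σ.real {a} • (ee (n • a)).re := by
      simp only [smul_eq_mul]
      by_cases h : (0 : TT) ∈ (range N).image e
      · rw [← add_sum_erase _ _ h]
        simp [measureReal_nonneg]
      · rw [erase_eq_of_notMem h]
    have h6 := (abs_le.1 (h3.trans_eq (one_mul _))).1
    linarith

lemma sinh_le {x : ℝ} (h : |x| ≤ 1) : Real.sinh x ≤ x + x ^ 2 := by
  have h1 := abs_le.1 (Real.abs_exp_sub_one_sub_id_le h)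
  have h2 := Real.add_one_le_exp (-x)
  rw [Real.sinh_eq]
  nlinarith [sq_nonneg x]

theorem result (R : Set ℕ) (hR : 0 ∉ R) : ErgodicNice R ↔ Nice R := by
  refine ⟨fun h X _ μ _ T hT A hA _ ε hε => ?_, fun h X _ μ _ T hT _ => h X μ T hT⟩
  by_contra hcon
  push Not at hcon
  obtain ⟨σ, hσ, hs⟩ := herglotz μ hT (f := fun ω => A.indicator 1 ω - μ.real A)
    ((measurable_one.indicator hA).sub measurable_const) fun ω => by
      have h1 : 0 ≤ μ.real A := measureReal_nonneg
      have h2 : μ.real A ≤ 1 := measureReal_le_one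
      by_cases h : ω ∈ A <;> simp [h, abs_le, h1, h2] <;> linarith
  obtain ⟨F, D, hF, hD, hd⟩ := split σ (δ := ε / 4) (by positivity)
  set M := σ.real Set.univ with hM
  have hM0 : 0 ≤ M := measureReal_nonneg
  have ht0 : 0 < min 1 (ε / 4) / (M + 1) ^ 2 := by positivity
  set t : ℝ≥0 := ⟨min 1 (ε / 4) / (M + 1) ^ 2, ht0.le⟩ with ht
  have htp : (0 : ℝ) < t := ht0
  have ht1 : (t : ℝ) * (M + 1) ^ 2 = min 1 (ε / 4) := by
    change min 1 (ε / 4) / (M + 1) ^ 2 * _ = _
    field_simp
  haveI : NullSingletonClass (t • σ.restrict D) := ⟨fun x => by simp⟩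
  set E := Real.exp (-(t • σ.restrict D).real Set.univ) with hE
  have hE0 : 0 < E := Real.exp_pos _
  obtain ⟨ν, B, η, hν, hmp, herg, hB, hη, hb, hn⟩ := build (fun a : F => (a : TT))
    Subtype.val_injective (fun a ha => hF (ha ▸ a.2)) (fun a => E * t * σ.real {(a : TT)})
    (fun a => by have : 0 ≤ σ.real {(a : TT)} := measureReal_nonneg; positivity)
    (t • σ.restrict D)
  obtain ⟨n, hnR, hlt⟩ := h _ ν _ hmp herg B hB (by
    rw [pos_iff_ne_zero]
    intro h0
    simp [Measure.real, h0] at hb) (η ^ 2 * (E * t * (ε / 2))) (by positivity)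
  rw [hb, hn n (fun h0 => hR (h0 ▸ hnR)), ← hE, integral_smul_nnreal_measure] at hlt
  have h1 := hd n
  have h2 : ∫ x, (ee (n • x)).re ∂σ ≤ -ε := by
    rw [integral_re_C _ (by fun_prop), hs, Complex.ofReal_re, corr μ hT hA]
    linarith [hcon n hnR]
  have h3 : |∫ x in D, (ee (n • x)).re ∂σ| ≤ M := by
    have := norm_setIntegral_le_of_norm_le_const (μ := σ) (s := D) (C := 1)
      (f := fun x => (ee (n • x)).re) (measure_lt_top _ _) fun x _ =>
        (Complex.abs_re_le_norm _).trans (norm_ee _).le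
    rw [one_mul] at this
    exact this.trans (measureReal_mono (Set.subset_univ _))
  set c := ∫ x in D, (ee (n • x)).re ∂σ with hc
  have h4 : ∑ a : F, E * t * σ.real {(a : TT)} * (ee (n • (a : TT))).re =
      E * t * ∑ a ∈ F, σ.real {a} * (ee (n • a)).re := by
    rw [Finset.mul_sum, ← Finset.sum_coe_sort F]
    exact sum_congr rfl fun a _ => by ring
  have h5 : c ^ 2 ≤ (M + 1) ^ 2 := by
    rw [← sq_abs]; exact pow_le_pow_left₀ (abs_nonneg _) (by linarith) 2
  have h6 : (t : ℝ) * c ^ 2 ≤ ε / 4 :=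
    (mul_le_mul_of_nonneg_left h5 htp.le).trans (ht1.le.trans (min_le_right _ _))
  have h7 : |(t : ℝ) * c| ≤ 1 := by
    rw [abs_mul, abs_of_pos htp]
    have := min_le_left 1 (ε / 4)
    nlinarith [mul_le_mul_of_nonneg_left h3 htp.le]
  have h8 := sinh_le h7
  rw [h4, NNReal.smul_def, smul_eq_mul] at hlt
  set S := ∑ a ∈ F, σ.real {a} * (ee (n • a)).re
  have h9 : t * S + Real.sinh (t * c) ≤ -(t * (ε / 2)) := by
    nlinarith [mul_le_mul_of_nonneg_left h6 htp.le,
      mul_le_mul_of_nonneg_left (show S + c ≤ -(3 * ε / 4) by linarith) htp.le]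
  have h10 := mul_le_mul_of_nonneg_left h9 (mul_pos (pow_pos hη 2) hE0).le
  nlinarith

end Pool.Agent.Results.MP_e00215_an.ErgNice
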